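import Mathlib
import Pool.Agent.N741.FC.NearAll

/-!
# The Fermat-Catalan equation with bases near powers of one integer

There is `κ` such that only finitely many value triples `(x ^ p, y ^ q, z ^ r)` come from solutions of
`x ^ p + y ^ q = z ^ r` in pairwise coprime positive integers, all exponents `≥ 2` free, with the following
property: for some integer `w ≥ 2` the bases are equal, up to `w / (log N) ^ κ`, where `N = max (x, y, z)`,
to positive powers `w ^ a`, `w ^ b`, `w ^ c` of `w`. The exponents `a`, `b`, `c` are not restricted.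

Proof. Linear forms in two `2`-adic logarithms bound `p`, `q`, `r` by a power of `log N` (starting library,
Y902). Let `x ^ p` and `z ^ r` be the two largest terms. Since `w` exceeds a large power of `log N`,
comparison of sizes gives `a p = c r`, and `z ^ r - x ^ p` is an integer of size about
`m w ^ k` with `2 ≤ m < w / 2`, which is never near a power `w ^ (b q)`.
-/

set_option autoImplicit false

namespace Pool.Agent.Results.MP_509488_nt.BasesNearPowers

/-- There are finitely many solutions, counted by their value triples, whose three bases are near powers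
of one integer `w ≥ 2`. -/
theorem result : ∃ κ : ℕ, {v : ℕ × ℕ × ℕ | ∃ x y z p q r w a b c : ℕ, 0 < x ∧ 0 < y ∧ 0 < z ∧
    Nat.Coprime x y ∧ Nat.Coprime x z ∧ Nat.Coprime y z ∧ 2 ≤ p ∧ 2 ≤ q ∧ 2 ≤ r ∧
    x ^ p + y ^ q = z ^ r ∧ v = (x ^ p, y ^ q, z ^ r) ∧ 2 ≤ w ∧ 1 ≤ a ∧ 1 ≤ b ∧ 1 ≤ c ∧
    |(x : ℝ) - (w : ℝ) ^ a| * Real.log (max x (max y z) : ℕ) ^ κ ≤ w ∧
    |(y : ℝ) - (w : ℝ) ^ b| * Real.log (max x (max y z) : ℕ) ^ κ ≤ w ∧
    |(z : ℝ) - (w : ℝ) ^ c| * Real.log (max x (max y z) : ℕ) ^ κ ≤ w}.Finite :=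
  Pool.Agent.N741.FC.near_all

end Pool.Agent.Results.MP_509488_nt.BasesNearPowers
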