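import Mathlib
import Pool.Agent.N741.LD.Fin

/-!
# The Fermat-Catalan equation with two bases up to `N` and a very large third base

For every `ε > 0` there are `R` and `c > 0` such that for all large `N` the equation
`x ^ p + y ^ q = z ^ r`, where the term `z ^ r` may stand in any of the three positions, has at most
`N ^ ε` solutions with coprime bases `x, y ≤ N`, third base `z ≤ exp (N ^ c)` and exponents
`p, q ≥ 2`, `r ≥ R`. Solutions are counted by the pairs of bases `(x, y)` together with the values of
the three terms.

Proof. Linear forms in logarithms bound all exponents by a small power of `N`. For fixed exponents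
a two-dimensional determinant method with auxiliary polynomials in `x`, `y`, `z` of degree smaller
than `r` in `z` covers the pairs by `N ^ ε` plane curves of degree at most `N ^ ε`. On an irreducible
curve a one-dimensional determinant method is used: curves of large degree have few integral points at
all; on curves of bounded degree whose support is not contained in a line the function
`x ^ p ± y ^ q` is far from a perfect power in the function field (if one of `p`, `q` is large), and so
the auxiliary polynomials may contain powers of `z`; the remaining curves are treated by the divisor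
bound. If `p` and `q` are bounded, all three bases are at most `2 N`, and the bound of the starting
library for the number of solutions with all bases at most `2 N` applies.
-/

set_option autoImplicit false

namespace Pool.Agent.Results.MP_509488_nt.LopsidedPairs

/-- The solutions of `x ^ p + y ^ q = z ^ r`, the term `z ^ r` being in any of the three positions,
with coprime `1 ≤ x, y ≤ N`, `1 ≤ z ≤ W`, `p, q ≥ 2`, `r ≥ R`: the pairs of bases `(x, y)` together
with the values of the three terms. -/
def Sols (N R : ℕ) (W : ℝ) : Set (ℕ × ℕ × ℕ × ℕ × ℕ) := {v | ∃ x y z p q r : ℕ, 1 ≤ x ∧ x ≤ N ∧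
  1 ≤ y ∧ y ≤ N ∧ Nat.Coprime x y ∧ 1 ≤ z ∧ (z : ℝ) ≤ W ∧ 2 ≤ p ∧ 2 ≤ q ∧ R ≤ r ∧
    (x ^ p + y ^ q = z ^ r ∨ x ^ p + z ^ r = y ^ q ∨ y ^ q + z ^ r = x ^ p) ∧
    v = (x, y, x ^ p, y ^ q, z ^ r)}

/-- At most `N ^ ε` solutions have two coprime bases up to `N` and a third base up to `exp (N ^ c)`
with exponent at least `R`. -/
theorem result (ε : ℝ) (hε : 0 < ε) : ∃ (R : ℕ) (c : ℝ) (N₀ : ℕ), 0 < c ∧ ∀ N : ℕ, N₀ ≤ N →
    (Sols N R (Real.exp ((N : ℝ) ^ c))).Finite ∧
      ((Sols N R (Real.exp ((N : ℝ) ^ c))).ncard : ℝ) ≤ (N : ℝ) ^ ε :=
  Pool.Agent.N741.LD.main ε hε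

end Pool.Agent.Results.MP_509488_nt.LopsidedPairs
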