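import Mathlib
import Pool.Agent.N741.PB.Main

/-!
# The Fermat-Catalan equation with two bases in polynomial families: a uniform power saving

Let `F` and `G` be integer polynomials in `d` variables, not both constant. For `δ > 0` and `R ≥ 2` there is
`c > 0` such that at most `N ^ (d - 1 + 1 / R + δ)` integral points `t` of the box `|t i| ≤ N` have the
property that `F(t)` and `G(t)` are two of the three bases of a primitive solution of the Fermat-Catalan
equation (all three exponents free, `1/l + 1/m + 1/k ≤ 1`, any signs) with a third base at most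
`exp (N ^ c)` whose exponent has no prime factor smaller than `R`. For `R = 2` this is no condition and the
bound is `N ^ (d - 1/2 + δ)`.

The result is uniform in the polynomials: for `N ≥ N₀(d, R, δ)` it holds for all `F`, `G` of degree at most
`N ^ c` with values at most `exp (N ^ c)` in the box. (So boxes of side `N` may be situated anywhere up to the
height `exp (N ^ c)`, one of the two bases may be any given integer up to `exp (N ^ c)`, and so on.)

Proof. Linear forms in two `2`-adic logarithms (starting library, Y902 and R477) bound the exponents by a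
small power of `N`; a base `± 1` may be given a bounded exponent. Fixing all coordinates but one we may
suppose `d = 1`. If `F` and `G` have a common factor `h` then `h(n) = ± 1`. Otherwise `F ^ l ± G ^ m` is not a
perfect power (the Fermat-Catalan theorem for polynomials), and `X ^ k - (F ^ l ± G ^ m)` has no factor of
degree between `1` and `R - 1`. The determinant method for many primes `r ≈ N ^ (1/R + δ/2)` (auxiliary
polynomials of degree less than `R` in the third base, and a resultant) gives the bound, with a polynomial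
dependence on all degrees.
-/

set_option autoImplicit false

namespace Pool.Agent.Results.MP_509488_nt.PolynomialPairs

open MvPolynomial

/-- `a` and `b` are two of the three bases of a primitive solution with exponents `l`, `m`, `k`
(`1/l + 1/m + 1/k ≤ 1`) and signs `s`, `t`; the third base `c` is nonzero of absolute value at most `W`,
and its exponent `k` has no prime factor smaller than `R` -/
def TwoBases (R : ℕ) (W : ℝ) (a b : ℤ) : Prop := ∃ (c : ℤ) (l m k : ℕ) (s t : ℤ),
  a ≠ 0 ∧ b ≠ 0 ∧ c ≠ 0 ∧ IsCoprime a b ∧ 0 < l ∧ 0 < m ∧ 0 < k ∧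
    (1 : ℚ) / l + 1 / m + 1 / k ≤ 1 ∧ (s = 1 ∨ s = -1) ∧ (t = 1 ∨ t = -1) ∧
    a ^ l + s * b ^ m = t * c ^ k ∧ (∀ p : ℕ, p.Prime → p ∣ k → R ≤ p) ∧ |(c : ℝ)| ≤ W

theorem ineq_of {l m k : ℕ} (hl : 0 < l) (hm : 0 < m) (hk : 0 < k)
    (h : (1 : ℚ) / l + 1 / m + 1 / k ≤ 1) : m * k + k * l + l * m ≤ l * m * k := by
  have hl' : (0 : ℚ) < l := by exact_mod_cast hl
  have hm' : (0 : ℚ) < m := by exact_mod_cast hm
  have hk' : (0 : ℚ) < k := by exact_mod_cast hk
  have h1 : ((m * k + k * l + l * m : ℕ) : ℚ) ≤ ((l * m * k : ℕ) : ℚ) := by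
    push_cast
    have h2 := mul_le_mul_of_nonneg_right h (by positivity : (0 : ℚ) ≤ l * m * k)
    have h3 : ((1 : ℚ) / l + 1 / m + 1 / k) * (l * m * k) = m * k + k * l + l * m := by
      field_simp
    linarith
  exact_mod_cast h1

/-- For all `d ≥ 1`, `R ≥ 2` and `δ > 0` there is `c > 0` such that for all large `N` and all integer
polynomials `F`, `G` in `d` variables, not both constant, of degree at most `N ^ c` and with values at
most `exp (N ^ c)` in the box `|t i| ≤ N`, at most `N ^ (d - 1 + 1 / R + δ)` integral points `t` of the box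
are such that `F(t)`, `G(t)` are two bases of a primitive solution with a third base at most
`exp (N ^ c)` whose exponent has no prime factor smaller than `R`. -/
theorem result (d R : ℕ) (hd : 1 ≤ d) (hR : 2 ≤ R) (δ : ℝ) (hδ : 0 < δ) :
    ∃ c : ℝ, 0 < c ∧ ∃ N₀ : ℕ, ∀ N : ℕ, N₀ ≤ N → ∀ F G : MvPolynomial (Fin d) ℤ,
      (0 < F.totalDegree ∨ 0 < G.totalDegree) →
      (F.totalDegree : ℝ) ≤ (N : ℝ) ^ c → (G.totalDegree : ℝ) ≤ (N : ℝ) ^ c →
      (∀ t : Fin d → ℤ, (∀ i, |t i| ≤ (N : ℤ)) →
        |((eval t F : ℤ) : ℝ)| ≤ Real.exp ((N : ℝ) ^ c) ∧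
        |((eval t G : ℤ) : ℝ)| ≤ Real.exp ((N : ℝ) ^ c)) →
      ({t : Fin d → ℤ | (∀ i, |t i| ≤ (N : ℤ)) ∧
        TwoBases R (Real.exp ((N : ℝ) ^ c)) (eval t F) (eval t G)}.ncard : ℝ) ≤
          (N : ℝ) ^ ((d : ℝ) - 1 + 1 / (R : ℝ) + δ) := by
  obtain ⟨s, rfl⟩ := Nat.exists_eq_add_of_le' hd
  obtain ⟨c, hc, N₀, h⟩ := Pool.Agent.N741.PB.pair_main s R hR δ hδ
  refine ⟨c, hc, N₀, fun N hN F G hFG hF hG hval => ?_⟩
  have h1 := h N hN F G hFG hF hG hval
  have h2 : ((s + 1 : ℕ) : ℝ) - 1 + 1 / (R : ℝ) + δ = (s : ℝ) + 1 / (R : ℝ) + δ := by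
    push_cast; ring
  rw [h2]
  refine le_trans ?_ h1
  have h3 : {t : Fin (s + 1) → ℤ | (∀ i, |t i| ≤ (N : ℤ)) ∧
      TwoBases R (Real.exp ((N : ℝ) ^ c)) (eval t F) (eval t G)} ⊆
      {t : Fin (s + 1) → ℤ | (∀ i, |t i| ≤ (N : ℤ)) ∧
        Pool.Agent.N741.PB.Pair R (Real.exp ((N : ℝ) ^ c)) (eval t F) (eval t G)} := by
    rintro t ⟨ht, w, l, m, k, σ, τ, ha, hb, hw, hab, hl, hm, hk, hle, hσ, hτ, heq, hkR, hW⟩
    exact ⟨ht, w, l, m, k, σ, τ, ⟨ha, hb, hw, hab, hl, hm, hk, ineq_of hl hm hk hle, hσ, hτ, heq⟩,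
      hkR, hW⟩
  exact_mod_cast Set.ncard_le_ncard h3 (Pool.Agent.N741.PB.box_finite _)

end Pool.Agent.Results.MP_509488_nt.PolynomialPairs
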