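import Mathlib
import Pool.Agent.N666.VE.FCMain

/-!
# The Fermat-Catalan equation with two bases near real powers of a prime number

Let `P₁`, `P₂` be generalised polynomials `P(t) = ∑ a_x t ^ x` (finitely many real exponents `x`, real
coefficients) with distinct leading exponents which are positive and not integers, and positive
leading coefficients; for example `P₁(t) = t ^ √2`, `P₂(t) = t ^ √3`.  Let `U` be fixed.  There is
`κ > 0` such that for one hundred per cent of the PRIMES `ℓ` no two coprime integers `x`, `y` with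
`|x - P₁(ℓ)| ≤ U`, `|y - P₂(ℓ)| ≤ U` are two of the bases of a solution

`x ^ p + y ^ q = z ^ r`, `x ^ p + z ^ r = y ^ q` or `y ^ q + z ^ r = x ^ p`

with a third base `z ≤ exp (ℓ ^ κ)`.  All exponents `p, q, r ≥ 2` are free, except that `r ≥ 3` if `p`
and `q` are both even.

Proof.  Vaughan's identity and van der Corput's method for several generalised polynomials
(`Pool.Agent.Y961.JR` of the starting library) give the equidistribution of the vectors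
`(⌊P₁(ℓ)⌋, ⌊P₂(ℓ)⌋)`, `ℓ` prime, modulo all `m ≤ ℓ ^ δ` with a power saving.  Then each pair of bases
occurs for few `ℓ`, and the theorem of helper741 (with helpers 141, 157, 525, 767) on lopsided pairs
(`MP_509488_nt.LopsidedPairs`) settles the large `r`; the others are settled by the residue sieve for
pairs of bases (`Pool.Agent.H374R2`), transported to the sequence.
-/

set_option autoImplicit false

namespace Pool.Agent.Results.MP_509488_nt.RealPowersOfPrimes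

/-- The generalised polynomial `∑ a_x t ^ x`. -/
noncomputable def P (F : Finset ℝ) (a : ℝ → ℝ) (t : ℝ) : ℝ := ∑ x ∈ F, a x * t ^ x

/-- `c` is the largest exponent; it is positive and not an integer and has a positive coefficient. -/
def Admissible (F : Finset ℝ) (a : ℝ → ℝ) (c : ℝ) : Prop :=
  c ∈ F ∧ (∀ x ∈ F, x ≤ c) ∧ 0 < c ∧ (∀ m : ℕ, c ≠ m) ∧ 0 < a c

/-- `x` and `y` are coprime and two of the three bases of a solution with a third base at most `W`. -/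
def TwoBases (W : ℝ) (x y : ℕ) : Prop := ∃ z p q r : ℕ, 1 ≤ x ∧ 1 ≤ y ∧ Nat.Coprime x y ∧ 1 ≤ z ∧
  (z : ℝ) ≤ W ∧ 2 ≤ p ∧ 2 ≤ q ∧ 2 ≤ r ∧ (3 ≤ r ∨ ¬ 2 ∣ p ∨ ¬ 2 ∣ q) ∧
  (x ^ p + y ^ q = z ^ r ∨ x ^ p + z ^ r = y ^ q ∨ y ^ q + z ^ r = x ^ p)

/-- For large `N` at most the proportion `ε` of the primes `ℓ` in `(N, 2 N]` are such that there are two
bases within `U` of `P₁(ℓ)` and `P₂(ℓ)` with a third base at most `exp (ℓ ^ κ)`. -/
theorem result (F₁ F₂ : Finset ℝ) (a₁ a₂ : ℝ → ℝ) (c₁ c₂ : ℝ) (h₁ : Admissible F₁ a₁ c₁)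
    (h₂ : Admissible F₂ a₂ c₂) (hne : c₁ ≠ c₂) (U : ℕ) :
    ∃ κ : ℝ, 0 < κ ∧ ∀ ε : ℝ, 0 < ε → ∃ N₀ : ℕ, ∀ N : ℕ, N₀ ≤ N →
      ({ℓ : ℕ | ℓ.Prime ∧ N < ℓ ∧ ℓ ≤ 2 * N ∧ ∃ x y : ℕ, |(x : ℝ) - P F₁ a₁ ℓ| ≤ U ∧
        |(y : ℝ) - P F₂ a₂ ℓ| ≤ U ∧ TwoBases (Real.exp ((ℓ : ℝ) ^ κ)) x y}.ncard : ℝ) ≤
      ε * ({ℓ : ℕ | ℓ.Prime ∧ N < ℓ ∧ ℓ ≤ 2 * N}.ncard : ℝ) := by
  have H : Pool.Agent.Y961.JR.Fam ![F₁, F₂] ![a₁, a₂] ![c₁, c₂] := by
    refine ⟨?_, ?_, ?_, ?_, ?_, ?_⟩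
    · intro j; fin_cases j <;> [exact h₁.1; exact h₂.1]
    · intro j; fin_cases j <;> [exact h₁.2.1; exact h₂.2.1]
    · intro j; fin_cases j <;> [exact h₁.2.2.2.2; exact h₂.2.2.2.2]
    · intro j; fin_cases j <;> [exact h₁.2.2.1; exact h₂.2.2.1]
    · intro j; fin_cases j <;> [exact h₁.2.2.2.1; exact h₂.2.2.2.1]
    · intro i j hij
      fin_cases i <;> fin_cases j <;> simp at hij ⊢
      · exact hne hij
      · exact hne hij.symm
  obtain ⟨κ, hκ, h⟩ := Pool.Agent.N666.VE.fc_primes _ _ _ H U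
  refine ⟨κ, hκ, fun ε hε => ?_⟩
  obtain ⟨N₀, hN₀⟩ := h ε hε
  refine ⟨N₀, fun N hN => ?_⟩
  refine le_trans (le_of_eq ?_) (hN₀ N hN)
  congr 2
  ext n
  simp only [Set.mem_ofPred_eq, Pool.Agent.N666.VE.Near, Pool.Agent.N666.VE.val, and_assoc]
  rfl

end Pool.Agent.Results.MP_509488_nt.RealPowersOfPrimes
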